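import Pool.Agent.Lib.MP_614bef_an.Final

set_option autoImplicit false

namespace Pool.Agent.Results.MP_614bef_an.NotRegular

open MeasureTheory Set Filter Metric
open _root_.MP_614bef_an

/-- The free boundary in the Robin shape optimization problem (`d = 2`, `p = 2`) need not be
`C^{1,α}` regular, not even outside an `ℋ¹`-null set, for any `α ∈ (0,1)`. -/
theorem result : ∃ ρ : ℝ, 0 < ρ ∧ ρ < 1 ∧ ∀ D : Set V, IsOpen D → Bornology.IsBounded D →
    closedBall (0 : V) ρ ⊆ D →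
    ∃ f : V → ℝ, Measurable f ∧ (∀ x, 0 ≤ f x) ∧ (∃ M : ℝ, ∀ x, f x ≤ M) ∧
    ∃ (u : V → ℝ) (g : V → V) (up um : V → ℝ) (ν : V → V), Adm D u g up um ν ∧
      (∀ (v : V → ℝ) (g' : V → V) (vp vm : V → ℝ) (ν' : V → V), Adm D v g' vp vm ν' →
        energy D f u g up um ≤ energy D f v g' vp vm) ∧
      ∀ α ∈ Ioo (0 : ℝ) 1, ∀ S : Set V, μH[1] S = 0 →
        ∃ x ∈ freeBdry D u \ S, ¬ IsC1Point α (freeBdry D u) x :=
  main

end Pool.Agent.Results.MP_614bef_an.NotRegular
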